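import Mathlib
import Pool.Agent.Q47.PWG.Win

/-!
# All words of digits of `ℓ p ^ n` in base `q`, for almost all primes `ℓ ≤ p ^ (θ n)`

Let `p` and `q` be coprime, for instance different primes. The starting file `MultiplesOfPowers` shows that almost all
integers `m ≤ p ^ (ε n)` have the property that `m p ^ n` has equidistributed digits in base `q`. Here the multipliers
are the PRIMES `ℓ ≤ p ^ (θ n)`, with a power saving for the exceptions and for all words of digits in all windows of places.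

The exponential sums over primes are estimated on the minor arcs (`Q47/DG/Kap`), and the subspace theorem (starting file
`Y933.KE.DiophP.powers_far`) shows that all the frequencies `u h p ^ N / q ^ i` with small `u` stay away from the integers.
-/

set_option autoImplicit false

open Filter Topology Finset

namespace Pool.Agent.Results.MP_b08cb4_nt.PrimeMultiples

open Classical in
/-- Let `p, q ≥ 2` be coprime, and let `w` and `ε > 0` be given. There is `θ₀ > 0` such that for `0 < θ ≤ θ₀` there are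
`c > 0` and `n₀` such that for all `n ≥ n₀` all but at most a proportion `p ^ (-c n)` of the primes `ℓ ≤ p ^ (θ n)` have the
following property: for every word `j` of `k ≤ w` digits in base `q` (`j < q ^ k`) and every window of `L` places
`i, …, i + L - 1` of the base `q` expansion of `ℓ * p ^ n`, the number of the `s < L` such that the digits of `ℓ * p ^ n` at
the places `i + s, …, i + s + k - 1` form the word `j` differs from `L / q ^ k` by at most `ε n`. Places are counted from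
the right: the place `i` is that of `q ^ i`. -/
theorem result (p q : ℕ) (hp : 2 ≤ p) (hq : 2 ≤ q) (hpq : p.Coprime q) (w : ℕ) (ε : ℝ) (hε : 0 < ε) :
    ∃ θ₀ : ℝ, 0 < θ₀ ∧ ∀ θ : ℝ, 0 < θ → θ ≤ θ₀ → ∃ c : ℝ, 0 < c ∧ ∃ n₀ : ℕ, ∀ n : ℕ, n₀ ≤ n →
      ((((Icc 1 ⌊(p : ℝ) ^ (θ * n)⌋₊).filter Nat.Prime).filter (fun ℓ => ¬ ∀ k j i L : ℕ,
        1 ≤ k → k ≤ w → j < q ^ k → i + L ≤ (Nat.digits q (ℓ * p ^ n)).length →
        |(((range L).filter (fun s => ℓ * p ^ n / q ^ (i + s) % q ^ k = j)).card : ℝ) -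
          L / (q : ℝ) ^ k| ≤ ε * n)).card : ℝ) ≤
        ((Icc 1 ⌊(p : ℝ) ^ (θ * n)⌋₊).filter Nat.Prime).card * (p : ℝ) ^ (-(c * n)) := by
  obtain ⟨θ0, hθ0, h⟩ := Pool.Agent.Q47.PWG.windows_pow (ι := ℕ) hp hq hpq w ε hε
  refine ⟨θ0, hθ0, fun θ hθ hθ1 => ?_⟩
  obtain ⟨κ, hκ, h⟩ := h θ hθ hθ1
  obtain ⟨κ', hκ', M0, hF⟩ := Pool.Agent.Q47.PWG.prime_Minor κ hκ
  obtain ⟨c, hc, n₀, h1⟩ := h _ κ' M0 hκ' hF
  refine ⟨c, hc, n₀, fun n hn => ?_⟩
  have h2 := h1 n hn ((Icc 1 ⌊(p : ℝ) ^ (θ * n)⌋₊).filter Nat.Prime, fun ℓ : ℕ => ℓ, fun _ : ℕ => 0)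
    ⟨⟨0, rfl⟩, fun i hi => by
      simp only [mem_filter, mem_Icc] at hi
      obtain ⟨⟨h3, h4⟩, _⟩ := hi
      refine ⟨h3, ?_⟩
      calc i ≤ ⌊(p : ℝ) ^ (θ * n)⌋₊ := h4
        _ ≤ ⌊(p : ℝ) ^ (θ * n)⌋₊ ^ 2 := by nlinarith, fun i _ => rfl⟩
  refine le_trans ?_ h2
  refine Nat.cast_le.2 (Finset.card_le_card fun ℓ hℓ => ?_)
  rw [Finset.mem_filter] at hℓ ⊢
  refine ⟨hℓ.1, fun hall => hℓ.2 fun k j i L hk1 hkw hj hiL => ?_⟩
  have hℓ1 : 1 ≤ ℓ := by
    have := hℓ.1
    simp only [mem_filter, mem_Icc] at this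
    exact this.1.1
  have hne : ℓ * p ^ n ≠ 0 := by positivity
  refine hall k j i L hk1 hkw hj ?_
  simp only
  rcases Nat.eq_zero_or_pos (i + L) with h0 | h0
  · rw [h0, pow_zero]
    exact Nat.one_le_iff_ne_zero.2 (by positivity)
  · have h3 : q ^ (i + L - 1) ≤ ℓ * p ^ n := by
      have h4 := (Nat.lt_digits_length_iff (b := q) (k := i + L - 1) (by omega) (ℓ * p ^ n)).1 (by omega)
      exact h4
    calc q ^ (i + L) = q * q ^ (i + L - 1) := by
          rw [← pow_succ']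
          congr 1
          omega
      _ ≤ q * (ℓ * p ^ n) := Nat.mul_le_mul_left _ h3

end Pool.Agent.Results.MP_b08cb4_nt.PrimeMultiples
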