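import Mathlib
import Pool.Agent.Q21.DW.Dy
import Pool.Agent.Results.MP_b08cb4_nt.LowestDigits

set_option autoImplicit false

/-! # Blocks of digits of `p ^ n` for exponents `n` given by the digits of a real number

Let `q` be a prime and `p ≥ 2` prime to `q`.  For almost every real number `α` and ALL exponents `n` that
are written by `k` consecutive digits of `α` in some base `g`, after one of the first `g ^ (t k)` places, if
`k` is large: all blocks have the right frequency among the lowest `C log n` digits of `l p ^ n`, for all `l`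
prime to `q`, and so every digit occurs at least `A log n` times in the base `q` expansion of `p ^ n`
(`t < 1 - s`, where `s < 1` depends on `C` and on the length of the blocks).  With Hausdorff dimensions of
the sets of the exceptional `α`, and the same for the exponents near the multiples of `α`. -/

namespace Pool.Agent.Results.MP_b08cb4_nt.RandomExponentBlocks

open Finset

open Classical in
/-- if `q ∤ l`, all blocks of `k` digits have the right frequency among the lowest `m` digits of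
`l p ^ n` in base `q`, for all `m ≤ C log n`, up to an error `ε log n` -/
def Blocks (q p k : ℕ) (C ε : ℝ) (l n : ℕ) : Prop :=
  ¬ q ∣ l → ∀ m : ℕ, (m : ℝ) ≤ C * Real.log n → ∀ a < q ^ k,
    |(((range m).filter (fun i => l * p ^ n / q ^ i % q ^ k = a)).card : ℝ) - m / (q : ℝ) ^ k| ≤
      ε * Real.log n

/-- every digit occurs at least `A log n` times in the base `q` expansion of `p ^ n` -/
def Often (q p : ℕ) (A : ℝ) (n : ℕ) : Prop :=
  ∀ b < q, A * Real.log n ≤ ((Nat.digits q (p ^ n)).count b : ℝ)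

section

lemma log_bound {n N : ℕ} (hn : 2 ≤ n) (hN : N < 2 * n) :
    Real.log ((N + 1 : ℕ) : ℝ) ≤ 2 * Real.log n := by
  have h1 : N + 1 ≤ n ^ 2 := by nlinarith
  have h2 : Real.log ((N + 1 : ℕ) : ℝ) ≤ Real.log ((n ^ 2 : ℕ) : ℝ) :=
    Real.log_le_log (by exact_mod_cast Nat.succ_pos N) (by exact_mod_cast h1)
  rw [Nat.cast_pow, Real.log_pow] at h2
  exact_mod_cast h2

/-- a power saving from a bound for the exceptions in `(N / 2, N]` by those of a finite set -/
lemma ps_E {c : ℝ} (hc : 0 < c) {B : ℕ → Prop} (M0 : ℕ)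
    (h : ∀ N : ℕ, M0 ≤ N → 2 ≤ N → ∃ E : Finset ℕ, (E.card : ℝ) ≤ ((N + 1 : ℕ) : ℝ) ^ (1 - c) ∧
      ∀ n : ℕ, 1 ≤ n → n ≤ N → N < 2 * n → B n → n ∈ E) :
    Pool.Agent.Q21.DW.PS (1 - min c 1) B := by
  have h01 : 0 ≤ 1 - min c 1 := by linarith [min_le_right c (1 : ℝ)]
  refine Pool.Agent.Q21.DW.ps_dyadic' h01 fun t ht => ?_
  refine ⟨2, max M0 2, fun N hN hN1 => ?_⟩
  obtain ⟨E, hE1, hE2⟩ := h N (le_trans (le_max_left _ _) hN) (le_trans (le_max_right _ _) hN)
  have hN1' : (1 : ℝ) ≤ N := by exact_mod_cast hN1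
  have hsub : ({n : ℕ | 1 ≤ n ∧ n ≤ N ∧ N < 2 * n ∧ B n} : Set ℕ) ⊆ (E : Set ℕ) := by
    rintro n ⟨h1, h2, h3, h4⟩
    exact hE2 n h1 h2 h3 h4
  have h7 := Set.ncard_le_ncard hsub (Finset.finite_toSet _)
  rw [Set.ncard_coe_finset] at h7
  have h8 : ((N + 1 : ℕ) : ℝ) ≤ 2 * N := by push_cast; linarith
  have h9 : (1 : ℝ) ≤ ((N + 1 : ℕ) : ℝ) := by push_cast; linarith
  calc _ ≤ (E.card : ℝ) := by exact_mod_cast h7
    _ ≤ ((N + 1 : ℕ) : ℝ) ^ (1 - c) := hE1
    _ ≤ ((N + 1 : ℕ) : ℝ) ^ (1 - min c 1) :=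
        Real.rpow_le_rpow_of_exponent_le h9 (by linarith [min_le_left c (1 : ℝ)])
    _ ≤ (2 * N) ^ (1 - min c 1) := Real.rpow_le_rpow (by positivity) h8 h01
    _ = 2 ^ (1 - min c 1) * (N : ℝ) ^ (1 - min c 1) := Real.mul_rpow (by norm_num) (by positivity)
    _ ≤ 2 ^ (1 : ℝ) * (N : ℝ) ^ t := by
        refine mul_le_mul (Real.rpow_le_rpow_of_exponent_le (by norm_num) ?_)
          (Real.rpow_le_rpow_of_exponent_le hN1' ht.le) (by positivity) (by positivity)
        have : 0 < min c 1 := lt_min hc one_pos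
        linarith
    _ = 2 * (N : ℝ) ^ t := by rw [Real.rpow_one]

lemma blocks (q p k : ℕ) (hq : q.Prime) (hp : 2 ≤ p) (hqp : ¬ q ∣ p) (hk : 1 ≤ k) (C ε : ℝ)
    (hC : 0 < C) (hε : 0 < ε) :
    ∃ s : ℝ, 0 ≤ s ∧ s < 1 ∧ Pool.Agent.Q21.DW.RandomReals s (Blocks q p k C ε) := by
  classical
  obtain ⟨c, hc, M0, h⟩ := LowestDigits.result.1 q p k hq hp hqp hk C (ε / 2) hC (by positivity)
  have h01 : 0 ≤ 1 - min c 1 := by linarith [min_le_right c (1 : ℝ)]
  have h02 : 1 - min c 1 < 1 := by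
    have : 0 < min c 1 := lt_min hc one_pos
    linarith
  refine ⟨1 - min c 1, h01, h02, ?_⟩
  refine Pool.Agent.Q21.DW.randomReals_of (B := fun l n => ¬ Blocks q p k C ε l n) h01 h02
    (fun l => ?_) (fun l n _ h2 => not_not.1 h2)
  by_cases hl : q ∣ l
  · exact Pool.Agent.Q21.DW.ps_false fun n hn => hn fun h => absurd hl h
  refine ps_E hc M0 fun N hN hN2 => ?_
  refine ⟨_, h (N + 1) (by omega) l hl, fun n h1 h2 h3 h4 => ?_⟩
  rw [mem_filter, mem_range]
  refine ⟨by omega, fun hall => h4 fun _ m hm a ha => ?_⟩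
  have h5 : 2 ≤ n := by omega
  have h6 := log_bound h5 h3
  have h7 : Real.log n ≤ Real.log ((N + 1 : ℕ) : ℝ) :=
    Real.log_le_log (by exact_mod_cast h1) (by exact_mod_cast (by omega : n ≤ N + 1))
  have h8 := hall m (hm.trans (mul_le_mul_of_nonneg_left h7 hC.le)) a ha
  refine le_trans (le_trans (le_of_eq ?_) h8) ?_
  · congr!
  · calc ε / 2 * Real.log ((N + 1 : ℕ) : ℝ) ≤ ε / 2 * (2 * Real.log n) := by gcongr
      _ = ε * Real.log n := by ring

lemma often (q p : ℕ) (hq : q.Prime) (hp : 2 ≤ p) (hqp : ¬ q ∣ p) (A : ℝ) :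
    ∃ s : ℝ, 0 ≤ s ∧ s < 1 ∧ Pool.Agent.Q21.DW.RandomReals s (fun _ : Unit => Often q p A) := by
  classical
  obtain ⟨c, hc, M0, h⟩ := LowestDigits.result.2.1 q p hq hp hqp |A|
  have h01 : 0 ≤ 1 - min c 1 := by linarith [min_le_right c (1 : ℝ)]
  have h02 : 1 - min c 1 < 1 := by
    have : 0 < min c 1 := lt_min hc one_pos
    linarith
  refine ⟨1 - min c 1, h01, h02, ?_⟩
  refine Pool.Agent.Q21.DW.randomReals_of (B := fun _ n => ¬ Often q p A n) h01 h02
    (fun _ => ?_) (fun _ n _ h2 => not_not.1 h2)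
  refine ps_E hc M0 fun N hN hN2 => ?_
  refine ⟨_, h (N + 1) (by omega), fun n h1 h2 h3 h4 => ?_⟩
  rw [mem_filter, mem_range]
  unfold Often at h4
  push Not at h4
  obtain ⟨b, hb, hlt⟩ := h4
  refine ⟨by omega, b, hb, lt_of_lt_of_le hlt ?_⟩
  have h7 : Real.log n ≤ Real.log ((N + 1 : ℕ) : ℝ) :=
    Real.log_le_log (by exact_mod_cast h1) (by exact_mod_cast (by omega : n ≤ N + 1))
  have h8 : 0 ≤ Real.log (n : ℝ) := Real.log_natCast_nonneg n
  calc A * Real.log n ≤ |A| * Real.log n := mul_le_mul_of_nonneg_right (le_abs_self A) h8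
    _ ≤ _ := mul_le_mul_of_nonneg_left h7 (abs_nonneg A)

end

/-- **Theorem.** Let `q` be a prime and `p ≥ 2` prime to `q`.  In the sense of `RandomReals s` (digits and
dilates of almost all real numbers, with Hausdorff dimensions):
for all `k ≥ 1` and `C, ε > 0` there is `s < 1` such that all blocks of `k` digits have the right frequency
among the lowest digits of `l p ^ n`, for all `l` prime to `q`;
so for every `A` there is `s < 1` such that every digit occurs at least `A log n` times in `p ^ n`. -/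
theorem result :
    (∀ q p k : ℕ, q.Prime → 2 ≤ p → ¬ q ∣ p → 1 ≤ k → ∀ C ε : ℝ, 0 < C → 0 < ε →
      ∃ s : ℝ, 0 ≤ s ∧ s < 1 ∧ Pool.Agent.Q21.DW.RandomReals s (Blocks q p k C ε)) ∧
    (∀ q p : ℕ, q.Prime → 2 ≤ p → ¬ q ∣ p → ∀ A : ℝ,
      ∃ s : ℝ, 0 ≤ s ∧ s < 1 ∧ Pool.Agent.Q21.DW.RandomReals s (fun _ : Unit => Often q p A)) :=
  ⟨fun q p k hq hp hqp hk C ε hC hε => blocks q p k hq hp hqp hk C ε hC hε,
    fun q p hq hp hqp A => often q p hq hp hqp A⟩

end Pool.Agent.Results.MP_b08cb4_nt.RandomExponentBlocks
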