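import Mathlib
import Pool.Agent.Q21.DW.Dy
import Pool.Agent.Results.MP_b08cb4_nt.TernaryExponent
import Pool.Agent.Results.MP_b08cb4_nt.MissingDigits

set_option autoImplicit false

/-! # Missing digits in `p ^ n` for exponents `n` given by the digits of a real number

Let `q` be an odd prime and `p ≥ 2` prime to `q`.  For almost every real number `α` and ALL exponents `n`
that are written by `k` consecutive digits of `α` in some base `g`, after one of the first `g ^ (t k)` places,
if `k` is large, the base `q` digits of `u p ^ n` are not all in `D`, for every `u` prime to `q`: here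
`t < 1 - s`, and `s = 0.5753...` if `q = 3`, `|D| = 2`, and `s = (1 + 2 a²) / 3` if `√q < |D| = q ^ a < q`.
So for random exponents up to `3 ^ k`, at `3 ^ (0.4246 k)` places, `2 ^ n` always contains the ternary digit
`2`, as conjectured by Erdős for all `n > 8`.  With Hausdorff dimensions of the sets of the exceptional `α`,
and the same for the exponents near the multiples of `α`. -/

namespace Pool.Agent.Results.MP_b08cb4_nt.RandomExponents

open Finset

/-- if `u > 0` is prime to `q`, the digits of `u p ^ n` in base `q` are not all in `D` -/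
def Leaves (q p : ℕ) (D : Finset ℕ) (u n : ℕ) : Prop :=
  0 < u → Nat.Coprime u q → ¬ (Nat.digits q (u * p ^ n)).toFinset ⊆ D

section

/-- from a bound for the exceptions below `N` -/
lemma leaves (q p : ℕ) (D : Finset ℕ) (s : ℝ) (h0 : 0 ≤ s) (h1 : s < 1) (C : ℝ)
    (h : ∀ u : ℕ, 0 < u → Nat.Coprime u q → ∀ N : ℕ, 1 ≤ N →
      (((range N).filter (fun n => (Nat.digits q (u * p ^ n)).toFinset ⊆ D)).card : ℝ) ≤
        C * (N : ℝ) ^ s) :
    Pool.Agent.Q21.DW.RandomReals s (Leaves q p D) := by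
  classical
  refine Pool.Agent.Q21.DW.randomReals_of (B := fun u n => ¬ Leaves q p D u n) h0 h1
    (fun u => ?_) (fun u n _ h2 => not_not.1 h2)
  by_cases hu : 0 < u ∧ Nat.Coprime u q
  swap
  · exact Pool.Agent.Q21.DW.ps_false fun n hn => hn fun h3 h4 => absurd ⟨h3, h4⟩ hu
  intro t ht
  refine ⟨|C| * 2, fun N hN => ?_⟩
  have hN1 : (1 : ℝ) ≤ N := by exact_mod_cast hN
  have h5 := h u hu.1 hu.2 (N + 1) (by omega)
  have h6 : (((Finset.Icc 1 N).filter (fun n => ¬ Leaves q p D u n)).card : ℝ) ≤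
      (((range (N + 1)).filter (fun n => (Nat.digits q (u * p ^ n)).toFinset ⊆ D)).card : ℝ) := by
    refine Nat.cast_le.2 (Pool.Agent.Q21.DW.card_mono fun m hm hm2 => ?_)
    rw [mem_Icc] at hm
    refine ⟨mem_range.2 (by omega), ?_⟩
    by_contra hcon
    exact hm2 fun _ _ => hcon
  have h7 : ((N + 1 : ℕ) : ℝ) ≤ 2 * N := by push_cast; linarith
  refine le_trans (le_trans (le_of_eq ?_) h6) (h5.trans ?_)
  · congr!
  calc C * ((N + 1 : ℕ) : ℝ) ^ s ≤ |C| * ((N + 1 : ℕ) : ℝ) ^ s :=
        mul_le_mul_of_nonneg_right (le_abs_self C) (by positivity)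
    _ ≤ |C| * (2 * N) ^ s :=
        mul_le_mul_of_nonneg_left (Real.rpow_le_rpow (by positivity) h7 h0) (abs_nonneg C)
    _ = |C| * (2 ^ s * (N : ℝ) ^ s) := by rw [Real.mul_rpow (by norm_num) (by positivity)]
    _ ≤ |C| * (2 ^ (1 : ℝ) * (N : ℝ) ^ t) := by
        refine mul_le_mul_of_nonneg_left (mul_le_mul
          (Real.rpow_le_rpow_of_exponent_le (by norm_num) h1.le)
          (Real.rpow_le_rpow_of_exponent_le hN1 ht.le) (by positivity) (by positivity)) (abs_nonneg C)
    _ = |C| * 2 * (N : ℝ) ^ t := by rw [Real.rpow_one]; ring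

end

/-- **Theorem.** In the sense of `RandomReals s` (digits and dilates of almost all real numbers, with
Hausdorff dimensions) the digits of `u p ^ n` in base `q` are not all in `D`, for all `u > 0` prime to `q`:
if `q = 3`, `|D| = 2`, `p ≥ 2` is prime to `3`, with `s = log 3 / log (27 / 4) ≤ 0.5754`;
if `q` is an odd prime, `p ≥ 2` prime to `q`, `√q < |D| < q`, `|D| = q ^ a`, with `s = (1 + 2 a²) / 3 < a`. -/
theorem result :
    (∀ D : Finset ℕ, D ⊆ Finset.range 3 → D.card = 2 → ∀ p : ℕ, 2 ≤ p → ¬ 3 ∣ p →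
      Real.log 3 / Real.log (27 / 4) ≤ 0.5754 ∧
      Pool.Agent.Q21.DW.RandomReals (Real.log 3 / Real.log (27 / 4)) (Leaves 3 p D)) ∧
    (∀ q p : ℕ, q.Prime → q ≠ 2 → 2 ≤ p → ¬ q ∣ p → ∀ D : Finset ℕ, q < D.card ^ 2 → D.card < q →
      ∀ a : ℝ, a = Real.log D.card / Real.log q → (1 + 2 * a ^ 2) / 3 < a ∧ a < 1 ∧
        Pool.Agent.Q21.DW.RandomReals ((1 + 2 * a ^ 2) / 3) (Leaves q p D)) := by
  refine ⟨fun D hD hD2 p hp hp3 => ?_, fun q p hq hq2 hp hqp D hD1 hD2 a ha => ?_⟩
  · have h1 := TernaryExponent.result.2.1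
    refine ⟨h1, ?_⟩
    obtain ⟨C, hC⟩ := TernaryExponent.result.1 D hD hD2 p hp hp3
    refine leaves 3 p D _ ?_ (lt_of_le_of_lt h1 (by norm_num)) C
      (fun u hu hu3 N hN => ?_)
    · exact div_nonneg (Real.log_nonneg (by norm_num)) (Real.log_nonneg (by norm_num))
    · refine le_trans (le_of_eq ?_) (hC u hu hu3 N hN).2
      congr!
  · obtain ⟨h1, C, hC⟩ := MissingDigits.result.1 q p hq hq2 hp hqp D hD1 hD2 a ha
    have hq1 : (1 : ℝ) < q := by exact_mod_cast hq.one_lt
    have h2 : a < 1 := by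
      rw [ha, div_lt_one (Real.log_pos hq1)]
      have hD0 : 0 < D.card := by
        rcases Nat.eq_zero_or_pos D.card with h | h
        · rw [h] at hD1
          omega
        · exact h
      exact Real.log_lt_log (by exact_mod_cast hD0) (by exact_mod_cast hD2)
    refine ⟨h1, h2, leaves q p D _ (by positivity) (by linarith) C (fun u hu hu3 N hN => ?_)⟩
    refine le_trans (le_of_eq ?_) (hC u hu hu3 N hN).2
    congr!

end Pool.Agent.Results.MP_b08cb4_nt.RandomExponents
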