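import Pool.Agent.Q227.Vis.Univ
import Pool.Agent.Results.MP_b08cb4_nt.WordsInAllWindows

/-!
# Words at the visit places of minimal systems, in all long windows of almost all powers

Let `b, q ≥ 2` be coprime and `a ≥ 1`, and let `(Y, S)` be a minimal system (`Y` compact Hausdorff, all
orbits dense) and `W ⊆ Y` open and nonempty. For all but `δ M` of any `M` consecutive exponents `n`,
every long window of the places of `a q ^ n` in base `b` contains, for EVERY point `y` of `Y` and every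
word, at least `M ^ (1 - ε)` occurrences of the word at places `i` with `S ^ i y ∈ W`.
-/

set_option autoImplicit false

open Filter Topology

namespace Pool.Agent.Results.MP_b08cb4_nt.VisitPlaces

open Classical in
/-- Let `b, q ≥ 2` be coprime, `a ≥ 1`, and `k`, `ε, δ, η > 0`. Let `S` be a continuous map of a compact
Hausdorff space `Y` all of whose orbits are dense, and `W ⊆ Y` open and nonempty. There is `M0` such
that for all `M ≥ M0` and all `J`, for all but at most `δ M` of the exponents `n = J + t`, `t < M`: for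
every window `u, …, u + l - 1` of places of the base `b` expansion of `a q ^ n` (counted from the
right, `u + l` at most the number of digits) of length `l ≥ η (J + M)`, for every `y ∈ Y` and for every
word of `k` digits (the word with value `w < b ^ k`, with leading zeros) there are at least
`M ^ (1 - ε)` places `i` such that the word stands in the window at the places `i, …, i + k - 1` and
`S ^ i y ∈ W`. -/
theorem result (b q : ℕ) (hb : 2 ≤ b) (hq : 2 ≤ q) (hco : Nat.Coprime b q) (a : ℕ) (ha : 1 ≤ a)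
    (k : ℕ) (ε δ η : ℝ) (hε : 0 < ε) (hδ : 0 < δ) (hη : 0 < η)
    {Y : Type*} [TopologicalSpace Y] [CompactSpace Y] [T2Space Y] (S : Y → Y) (hS : Continuous S)
    (hmin : ∀ y : Y, Dense (Set.range fun n : ℕ => S^[n] y)) (W : Set Y) (hW : IsOpen W)
    (hWn : W.Nonempty) :
    ∃ M0 : ℕ, ∀ M : ℕ, M0 ≤ M → ∀ J : ℕ,
      (((Finset.range M).filter (fun t : ℕ => ¬ ∀ u l : ℕ,
        u + l ≤ (Nat.digits b (a * q ^ (J + t))).length → η * ((J : ℝ) + M) ≤ l →
        ∀ y : Y, ∀ w < b ^ k,
          (M : ℝ) ^ (1 - ε) ≤ (((Finset.range (u + l)).filter (fun i : ℕ =>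
            u ≤ i ∧ i + k ≤ u + l ∧ S^[i] y ∈ W ∧ a * q ^ (J + t) / b ^ i % b ^ k = w)).card : ℝ))).card
              : ℝ)
        ≤ δ * M := by
  obtain ⟨K, c, hc, hK⟩ := Pool.Agent.Q227.Vis.univ_block hb hS hmin hW hWn k
  obtain ⟨M0, hM0⟩ := WordsInAllWindows.result b q hb hq hco a ha K (ε / 2) δ η (by positivity) hδ hη
  have hlim : Tendsto (fun M : ℕ => (M : ℝ) ^ (ε / 2)) atTop atTop :=
    (tendsto_rpow_atTop (by positivity : 0 < ε / 2)).comp tendsto_natCast_atTop_atTop
  obtain ⟨M1, hM1⟩ := (hlim.eventually_ge_atTop ((K : ℝ) + 1)).exists_forall_of_atTop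
  refine ⟨max (max M0 M1) 1, fun M hM J => ?_⟩
  have h0 : M0 ≤ M := ((le_max_left _ _).trans (le_max_left _ _)).trans hM
  have h1 : M1 ≤ M := ((le_max_right _ _).trans (le_max_left _ _)).trans hM
  have h2 : 1 ≤ M := (le_max_right _ _).trans hM
  have hMR : (0 : ℝ) < M := by exact_mod_cast h2
  refine le_trans (Nat.cast_le.2 (Finset.card_le_card ?_)) (hM0 M h0 J)
  intro t ht
  rw [Finset.mem_filter] at ht ⊢
  refine ⟨ht.1, fun hall => ht.2 fun u l hul hl y w hw => ?_⟩
  have h3 := hall u l hul hl c hc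
  have h4 := Pool.Agent.Q227.Vis.count hK (a * q ^ (J + t)) u l y w hw
  have h5 : (M : ℝ) ^ (1 - ε / 2) ≤ ((K : ℝ) + 1) * (((Finset.range (u + l)).filter (fun i : ℕ =>
            u ≤ i ∧ i + k ≤ u + l ∧ S^[i] y ∈ W ∧ a * q ^ (J + t) / b ^ i % b ^ k = w)).card : ℝ) := by
    refine h3.trans ?_
    have h6 : (((Finset.range (u + l)).filter (fun m : ℕ => u ≤ m ∧ m + K ≤ u + l ∧
        a * q ^ (J + t) / b ^ m % b ^ K = c)).card : ℝ) ≤ (((K + 1) *
      ((Finset.range (u + l)).filter (fun i : ℕ => u ≤ i ∧ i + k ≤ u + l ∧ S^[i] y ∈ W ∧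
        a * q ^ (J + t) / b ^ i % b ^ k = w)).card : ℕ) : ℝ) := by exact_mod_cast h4
    push_cast at h6
    exact h6
  have h7 : (M : ℝ) ^ (1 - ε / 2) = (M : ℝ) ^ (ε / 2) * (M : ℝ) ^ (1 - ε) := by
    rw [← Real.rpow_add hMR]
    congr 1
    ring
  rw [h7] at h5
  have h8 : ((K : ℝ) + 1) * (M : ℝ) ^ (1 - ε) ≤ (M : ℝ) ^ (ε / 2) * (M : ℝ) ^ (1 - ε) :=
    mul_le_mul_of_nonneg_right (hM1 M h1) (by positivity)
  have h9 : (0 : ℝ) < (K : ℝ) + 1 := by positivity
  exact le_of_mul_le_mul_left (h8.trans h5) h9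

end Pool.Agent.Results.MP_b08cb4_nt.VisitPlaces
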